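import Pool.Agent.MP_ec389a_an.H43.Sphere

/-! Q2: a neutral measure of a rational map whose support contains a periodic orbit and is not
minimal. -/

open Polynomial MeasureTheory Pool.Agent.MP_ec389a_an.H43

theorem Pool.Agent.Results.MP_ec389a_an.PeriodicInSupport.result
    [MeasurableSpace (OnePoint ℂ)] [BorelSpace (OnePoint ℂ)] :
    ∃ p q : ℂ[X], IsCoprime p q ∧ 2 ≤ deg p q ∧ ∃ μ : Measure (OnePoint ℂ), IsNeutral p q μ ∧
      (∃ z ∈ μ.support, ∃ n : ℕ, 1 ≤ n ∧ (ratMap p q)^[n] z = z) ∧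
      ¬ ∀ z ∈ μ.support, μ.support ⊆ closure (Set.range fun n : ℕ => (ratMap p q)^[n] z) := by
  obtain ⟨p, q, h1, h2, μ, h3, -, z, hz, hfix, z', hz', hne⟩ := sphere_main
  refine ⟨p, q, h1, h2, μ, h3, ⟨z, hz, 1, le_rfl, hfix⟩, fun h => hne ?_⟩
  have e : (Set.range fun n : ℕ => (ratMap p q)^[n] z) ⊆ {z} := by
    rintro _ ⟨n, rfl⟩
    exact Function.iterate_fixed hfix n
  exact (closure_minimal e isClosed_singleton) (h z hz hz')
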