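import Pool.Agent.MP_ec389a_an.H43.Sphere

/-! Q1: a neutral measure of a rational map whose support carries positive topological entropy. -/

open Polynomial MeasureTheory Pool.Agent.MP_ec389a_an.H43

theorem Pool.Agent.Results.MP_ec389a_an.PosEntropy.result
    [MeasurableSpace (OnePoint ℂ)] [BorelSpace (OnePoint ℂ)] :
    ∃ p q : ℂ[X], IsCoprime p q ∧ 2 ≤ deg p q ∧ ∃ μ : Measure (OnePoint ℂ), IsNeutral p q μ ∧
      0 < @Dynamics.coverEntropy (OnePoint ℂ) uniformSpaceOfCompactR1 (ratMap p q) μ.support := by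
  obtain ⟨p, q, h1, h2, μ, h3, h4, -⟩ := sphere_main
  exact ⟨p, q, h1, h2, μ, h3, h4⟩
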